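import Pool.Agent.MP_824cb5_co.Defs

namespace Pool.Agent.MP_824cb5_co

/-- the critical determinant of the cross-polytope `|x_1| + ... + |x_m| < 1`: the infimum of the
covolumes of the lattices of rank `m` in `R^m` whose nonzero points have `l^1` norm at least `1` -/
noncomputable def critDet (m : ℕ) : ℝ :=
  sInf {D : ℝ | ∃ B : Matrix (Fin m) (Fin m) ℝ, B.det ≠ 0 ∧ D = |B.det| ∧
    ∀ z : Fin m → ℤ, z ≠ 0 → 1 ≤ ∑ i, |∑ j, B i j * z j|}

end Pool.Agent.MP_824cb5_co
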